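import Pool.Agent.Y673.PP.Fin
import Pool.Agent.H107.MetricFam
import Pool.Agent.H164.NA.Core

/-!
# Uniform boundedness of preperiodic points for all parameters near almost every number, over all number fields

For almost every real (complex) number `z`, ALL number fields `K` contained in `ℝ` (in `ℂ`), all `d ≥ 2` and all `σ > 0`,
the map `w ^ d + c` has at most `N` preperiodic points in `K` for ALL `c ∈ K` with `|c - z| ≤ H(c) ^ (-σ)`, with finitely
many exceptions `c`; here `N` depends on `d`, on the degree of `K` and on `σ` only. (By Dirichlet's theorem there are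
infinitely many such rational `c` if `σ < 2`.) For every map from the algebraic numbers to a metric space and every `j` the
same holds for all `z` outside a set of dimension at most `1 / (j + 1)` with a constant `N` which depends on `d`, the degree
of `K`, `σ` and `j` only.
-/

set_option autoImplicit false

namespace Pool.Agent.Results.MP_c076ed_nt.NearAlmostEveryPoint

open NumberField MeasureTheory Height

section Defs

variable {K : Type} [Field K]

/-- the points of `K` with a finite forward orbit under `w ↦ w ^ d + c` -/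
def preperiodic (d : ℕ) (c : K) : Set K :=
  {z | (Set.range fun k : ℕ => (fun w : K => w ^ d + c)^[k] z).Finite}

/-- `w ^ d + c` has at most `N` preperiodic points in `K` for all `c ∈ J`, with finitely many exceptions -/
def AtMost (N d : ℕ) (J : Set K) : Prop :=
  ∃ F : Set K, F.Finite ∧ ∀ c ∈ J, c ∉ F → (preperiodic d c).encard ≤ N

/-- the absolute multiplicative height -/
noncomputable def H [NumberField K] (c : K) : ℝ := Real.exp (logHeight₁ c / Module.finrank ℚ K)

end Defs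

section Aux

variable {K : Type} [Field K] [NumberField K]

/-- the parameters with more than `N` preperiodic points -/
def Bad (K : Type) [Field K] (d N : ℕ) : Set K := {c | (N : ℕ∞) < (preperiodic d c).encard}

lemma atMost_of {N d : ℕ} {J : Set K} (h : {c | c ∈ Bad K d N ∧ c ∈ J}.Finite) : AtMost N d J :=
  ⟨_, h, fun _ hc hF => not_lt.1 fun hlt => hF ⟨hlt, hc⟩⟩

lemma H_le_iff (c : K) {X : ℝ} (hX : 0 < X) : H c ≤ X ↔ mulHeight₁ c ≤ X ^ Module.finrank ℚ K := by
  have h1 : H c ≤ X ↔ logHeight₁ c ≤ Module.finrank ℚ K * Real.log X :=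
    Pool.Agent.H164.NA.H_le_iff c hX
  have h2 : logHeight₁ c = Real.log (mulHeight₁ c) := rfl
  have h3 : 0 < mulHeight₁ c := lt_of_lt_of_le one_pos (one_le_mulHeight₁ c)
  rw [h1, h2, ← Real.log_pow, Real.log_le_log_iff h3 (by positivity)]

lemma one_le_H (c : K) : 1 ≤ H c := Pool.Agent.H164.NA.one_le_H c

/-- uniform in the fields of degree `D` -/
lemma count {d D : ℕ} (hd : 2 ≤ d) (hD : 1 ≤ D) (ε : ℝ) (hε : 0 < ε) :
    ∃ (N : ℕ) (C : ℝ), ∀ (K : Type) [Field K] [NumberField K], Module.finrank ℚ K = D → ∀ X : ℝ, 1 ≤ X →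
      {c : K | c ∈ Bad K d N ∧ H c ≤ X}.Finite ∧ ({c : K | c ∈ Bad K d N ∧ H c ≤ X}.ncard : ℝ) ≤ C * X ^ ε := by
  have hD0 : (0 : ℝ) < D := by exact_mod_cast hD
  obtain ⟨N, C, h⟩ := Pool.Agent.Y673.PP.few_params hd D hD (ε / D) (by positivity)
  refine ⟨N, C, fun K _ _ hK X hX => ?_⟩
  have hX0 : 0 < X := by linarith
  obtain ⟨h1, h2⟩ := h K hK (X ^ D) (one_le_pow₀ hX)
  have heq : {c : K | c ∈ Bad K d N ∧ H c ≤ X} = {c : K | mulHeight₁ c ≤ X ^ D ∧ (N : ℕ∞) <
      {z : K | (Set.range fun k : ℕ => (fun w : K => w ^ d + c)^[k] z).Finite}.encard} := by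
    ext c
    have h3 := H_le_iff c hX0
    rw [hK] at h3
    constructor
    · rintro ⟨g1, g2⟩
      exact ⟨h3.1 g2, g1⟩
    · rintro ⟨g1, g2⟩
      exact ⟨g2, h3.2 g1⟩
  rw [heq]
  refine ⟨h1, h2.trans (le_of_eq ?_)⟩
  rw [← Real.rpow_natCast X D, ← Real.rpow_mul hX0.le]
  congr 2
  field_simp

end Aux

/-- **Theorem.** There are functions `N` and `N'` of natural numbers with values in the natural numbers with the following
properties. `AtMost N d J` means that `w ^ d + c` has at most `N` preperiodic points in `K` for ALL `c ∈ J ⊆ K` with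
finitely many exceptions, and `H` is the absolute height.
(1) For almost every real `z`, for all number fields `K ⊂ ℝ`, all `d ≥ 2`, `k` and `σ ≥ 1 / (k + 1)`: `AtMost N d J` with
`N = N d [K : ℚ] k` and the set `J` of the `c ∈ K` with `|c - z| ≤ H(c) ^ (-σ)`. Moreover infinitely many rational `c`
satisfy `|c - z| ≤ H(c) ^ (-σ)` if `σ < 2`.
(2) For almost every complex `z`, for all number fields `K ⊂ ℂ`, all `d ≥ 2`, `k` and `σ ≥ 1 / (k + 1)`: the same.
(3) For every map `φ` from the algebraic numbers to a metric space `M` and every `j` there is a set `E ⊆ M` of Hausdorff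
dimension at most `1 / (j + 1)` such that for all `z` outside `E`, all number fields `K` (of algebraic numbers), all
`d ≥ 2`, `k` and `σ ≥ 1 / (k + 1)`: `AtMost N d J` with `N = N' d [K : ℚ] k j` and the set `J` of the `c ∈ K` with
`dist (φ c, z) ≤ H(c) ^ (-σ)`. -/
theorem result : ∃ (N : ℕ → ℕ → ℕ → ℕ) (N' : ℕ → ℕ → ℕ → ℕ → ℕ),
    (∀ᵐ z : ℝ, (∀ (K : IntermediateField ℚ ℝ) [NumberField K] (d k : ℕ) (σ : ℝ), 2 ≤ d → 1 / ((k : ℝ) + 1) ≤ σ →
      AtMost (N d (Module.finrank ℚ K) k) d {c : K | |(c : ℝ) - z| ≤ H c ^ (-σ)}) ∧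
      ∀ σ : ℝ, σ < 2 → {c : ℚ | |(c : ℝ) - z| ≤ H c ^ (-σ)}.Infinite) ∧
    (∀ᵐ z : ℂ, ∀ (K : IntermediateField ℚ ℂ) [NumberField K] (d k : ℕ) (σ : ℝ), 2 ≤ d → 1 / ((k : ℝ) + 1) ≤ σ →
      AtMost (N d (Module.finrank ℚ K) k) d {c : K | ‖(c : ℂ) - z‖ ≤ H c ^ (-σ)}) ∧
    (∀ (M : Type) [MetricSpace M] (φ : AlgebraicClosure ℚ → M) (j : ℕ), ∃ E : Set M,
      dimH E ≤ ENNReal.ofReal (1 / ((j : ℝ) + 1)) ∧ ∀ z : M, z ∉ E →
        ∀ (K : IntermediateField ℚ (AlgebraicClosure ℚ)) [NumberField K] (d k : ℕ) (σ : ℝ), 2 ≤ d →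
          1 / ((k : ℝ) + 1) ≤ σ →
            AtMost (N' d (Module.finrank ℚ K) k j) d {c : K | dist (φ c) z ≤ H c ^ (-σ)}) := by
  have hall : ∀ d D k j : ℕ, ∃ N : ℕ, 2 ≤ d → 1 ≤ D → ∃ C : ℝ, ∀ (K : Type) [Field K] [NumberField K],
      Module.finrank ℚ K = D → ∀ X : ℝ, 1 ≤ X → {c : K | c ∈ Bad K d N ∧ H c ≤ X}.Finite ∧
        ({c : K | c ∈ Bad K d N ∧ H c ≤ X}.ncard : ℝ) ≤ C * X ^ (1 / (((j : ℝ) + 1) * ((k : ℝ) + 1))) := by
    intro d D k j
    by_cases hd : 2 ≤ d
    · by_cases hD : 1 ≤ D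
      · obtain ⟨N, C, h⟩ := count hd hD (1 / (((j : ℝ) + 1) * ((k : ℝ) + 1))) (by positivity)
        exact ⟨N, fun _ _ => ⟨C, h⟩⟩
      · exact ⟨0, fun _ h => absurd h hD⟩
    · exact ⟨0, fun h => absurd h hd⟩
  choose N hN using hall
  have key : ∀ (E : Type) [NormedField E] [CharZero E] [NormedSpace ℝ E] [FiniteDimensional ℝ E]
      [MeasurableSpace E] [BorelSpace E] (μ : Measure E) [μ.IsAddHaarMeasure], 1 ≤ Module.finrank ℝ E →
      ∀ᵐ z ∂μ, ∀ (K : IntermediateField ℚ E) [NumberField K] (d k : ℕ) (σ : ℝ), 2 ≤ d → 1 / ((k : ℝ) + 1) ≤ σ →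
        AtMost (N d (Module.finrank ℚ K) k 1) d {c : K | dist (c : E) z ≤ H c ^ (-σ)} := by
    intro E _ _ _ _ _ _ μ _ hE
    have hcnt : Countable {K : IntermediateField ℚ E // NumberField K} :=
      (Pool.Agent.H164.NA.countable_fields E).to_subtype
    have h1 : ∀ q : {K : IntermediateField ℚ E // NumberField K} × ℕ × ℕ, ∀ᵐ z ∂μ, ∀ _ : NumberField q.1.1,
        2 ≤ q.2.1 → ∀ σ : ℝ, 1 / ((q.2.2 : ℝ) + 1) ≤ σ →
        AtMost (N q.2.1 (Module.finrank ℚ q.1.1) q.2.2 1) q.2.1 {c : q.1.1 | dist (c : E) z ≤ H c ^ (-σ)} := by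
      rintro ⟨⟨K, hK⟩, d, k⟩
      by_cases hd : 2 ≤ d
      · obtain ⟨C, hC⟩ := hN d (Module.finrank ℚ K) k 1 hd Module.finrank_pos
        have h2 := Pool.Agent.H2N.ae_family_space μ hE (fun c : K => (c : E)) (fun c : K => H c) one_le_H
          (s := 1 / ((((1 : ℕ) : ℝ) + 1) * ((k : ℝ) + 1))) (by positivity) (J := Unit)
          (fun _ => Bad K d (N d (Module.finrank ℚ K) k 1)) (fun _ ε hε => by
            refine ⟨|C|, fun X hX => ⟨(hC K rfl X hX).1, (hC K rfl X hX).2.trans ?_⟩⟩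
            have hX0 : 0 < X := by linarith
            refine (mul_le_mul_of_nonneg_right (le_abs_self C) (Real.rpow_nonneg hX0.le _)).trans ?_
            exact mul_le_mul_of_nonneg_left (Real.rpow_le_rpow_of_exponent_le hX (by linarith)) (abs_nonneg C))
        filter_upwards [h2] with z hz _ _ σ hσ
        refine atMost_of (hz σ ?_ ())
        have hk : (0 : ℝ) < (k : ℝ) + 1 := by positivity
        have hE1 : (1 : ℝ) ≤ Module.finrank ℝ E := by exact_mod_cast hE
        refine lt_of_lt_of_le ?_ hσ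
        rw [div_div, div_lt_div_iff₀ (by positivity) hk]
        push_cast
        nlinarith
      · exact Filter.Eventually.of_forall fun z _ h2 => absurd h2 hd
    filter_upwards [ae_all_iff.2 h1] with z hz K hK d k σ hd hσ
    exact hz (⟨K, hK⟩, d, k) hK hd σ hσ
  refine ⟨fun d D k => N d D k 1, N, ?_, ?_, ?_⟩
  · filter_upwards [key ℝ (volume : Measure ℝ) (by rw [Module.finrank_self]), Pool.Agent.H164.NA.ae_irrational]
      with z hz hirr
    exact ⟨hz, fun σ hσ => Pool.Agent.H164.NA.near_infinite hirr hσ⟩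
  · filter_upwards [key ℂ (volume : Measure ℂ) (by rw [Complex.finrank_real_complex]; norm_num)] with z hz K hK d k σ hd hσ
    have h2 := hz K d k σ hd hσ
    simp only [dist_eq_norm] at h2
    exact h2
  · intro M _ φ j
    have hcnt : Countable {K : IntermediateField ℚ (AlgebraicClosure ℚ) // NumberField K} :=
      (Pool.Agent.H164.NA.countable_fields (AlgebraicClosure ℚ)).to_subtype
    have h1 : ∀ q : {K : IntermediateField ℚ (AlgebraicClosure ℚ) // NumberField K} × ℕ × ℕ, ∃ E : Set M,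
        dimH E ≤ ENNReal.ofReal (1 / ((j : ℝ) + 1)) ∧
        ∀ z ∉ E, ∀ _ : NumberField q.1.1, 2 ≤ q.2.1 → ∀ σ : ℝ, 1 / ((q.2.2 : ℝ) + 1) ≤ σ →
          AtMost (N q.2.1 (Module.finrank ℚ q.1.1) q.2.2 j) q.2.1 {c : q.1.1 | dist (φ c) z ≤ H c ^ (-σ)} := by
      rintro ⟨⟨K, hK⟩, d, k⟩
      by_cases hd : 2 ≤ d
      · obtain ⟨C, hC⟩ := hN d (Module.finrank ℚ K) k j hd Module.finrank_pos
        have hk : (0 : ℝ) < 1 / ((k : ℝ) + 1) := by positivity
        obtain ⟨E, hE1, hE2⟩ := Pool.Agent.H107.ME.dim_family (fun c : K => φ c) (fun c : K => H c) one_le_H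
          (s := 1 / (((j : ℝ) + 1) * ((k : ℝ) + 1))) (by positivity) hk (J := Unit)
          (fun _ => Bad K d (N d (Module.finrank ℚ K) k j)) (fun _ ε hε => by
            refine ⟨|C|, fun X hX => ⟨(hC K rfl X hX).1, (hC K rfl X hX).2.trans ?_⟩⟩
            have hX0 : 0 < X := by linarith
            refine (mul_le_mul_of_nonneg_right (le_abs_self C) (Real.rpow_nonneg hX0.le _)).trans ?_
            exact mul_le_mul_of_nonneg_left (Real.rpow_le_rpow_of_exponent_le hX (by linarith)) (abs_nonneg C))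
        refine ⟨E, hE1.trans (ENNReal.ofReal_le_ofReal (le_of_eq ?_)), fun z hz _ _ σ hσ => ?_⟩
        · field_simp
        · refine atMost_of ((hE2 z hz ()).subset ?_)
          rintro c ⟨g1, g2⟩
          exact ⟨g1, le_trans (show dist (φ c) z ≤ H c ^ (-σ) from g2)
            (Real.rpow_le_rpow_of_exponent_le (one_le_H c) (by linarith))⟩
      · exact ⟨∅, by simp, fun z _ _ h2 => absurd h2 hd⟩
    choose G hG1 hG2 using h1
    refine ⟨⋃ q, G q, ?_, fun z hz K hK d k σ hd hσ => ?_⟩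
    · rw [dimH_iUnion]
      exact iSup_le hG1
    · exact hG2 (⟨K, hK⟩, d, k) z (fun h => hz (Set.mem_iUnion.2 ⟨_, h⟩)) hK hd σ hσ

end Pool.Agent.Results.MP_c076ed_nt.NearAlmostEveryPoint
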