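import Pool.Agent.Results.MP_c076ed_nt.EveryParameterInWindows
import Pool.Agent.V11001.KM.Near

/-!
# Uniform boundedness for all parameters with heights near the powers of every real number outside a set of dimension zero

The height `H(c)` of a rational number is the maximum of `|numerator|` and denominator. Let `ν k / log k → ∞`, for example
`ν k = k` or `ν k = k !`. There is a set `E` of real numbers of Hausdorff dimension zero such that for each `x > 1` outside
`E`, all `θ < 1` and all `d ≥ 2` there is `N` such that for ALL rational numbers `c` with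
`|H(c) - x ^ (ν k)| ≤ x ^ (θ ν k)` for some `k`, with finitely many exceptions, the map `z ^ d + c` has at most `N` rational
preperiodic points.
-/

set_option autoImplicit false

open Filter Topology
open scoped ENNReal

namespace Pool.Agent.Results.MP_c076ed_nt.ParametersNearPowers

open Pool.Agent.V11001.KM
open FewExceptionalUnicritical (preperiodic exceptional)
open EveryParameterInWindows (height height_le)

/-- at most `N` rational preperiodic points for all but finitely many `c` with heights near the powers -/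
def Law (ν : ℕ → ℝ) (θ β x : ℝ) (d : ℕ) : Prop :=
  ∃ N : ℕ, {c : ℚ | Near ν θ β x (height c) ∧ ¬ (preperiodic d c).encard ≤ N}.Finite

lemma one_degree (d : ℕ) (hd : 2 ≤ d) {ν : ℕ → ℝ} (hν : Fast ν) (B : Set ℝ) (hB : B.Countable) {θ : ℝ}
    (hθ1 : θ < 1) :
    ∃ E : Set ℝ, dimH E = 0 ∧ ∀ x : ℝ, 1 < x → x ∉ E → ∀ β ∈ B, 0 < β → Law ν θ β x d := by
  have h1θ : 0 < 1 - θ := by linarith
  have hall : ∀ j : ℕ, ∃ (N : ℕ) (E : Set ℝ), dimH E ≤ ENNReal.ofReal ((1 / ((j : ℝ) + 1)) / (1 - θ)) ∧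
      ∀ x : ℝ, 1 < x → x ∉ E → ∀ β ∈ B, 0 < β →
        {c : ℚ | Near ν θ β x (height c) ∧ ¬ (preperiodic d c).encard ≤ N}.Finite := by
    intro j
    obtain ⟨N, C, h⟩ := FewExceptionalUnicritical.result d hd (1 / ((j : ℝ) + 1)) (by positivity)
    obtain ⟨E, h3, h4⟩ := family (J := Unit)
      (fun c : ℚ => (height c : ℝ)) hν (s := 1 / ((j : ℝ) + 1)) (by positivity) hθ1 B hB
      (fun _ => {c : ℚ | (N : ℕ∞) < (preperiodic d c).encard}) (fun _ ε hε => by
        refine ⟨max C 0, fun X hX => ?_⟩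
        have hset : {t | t ∈ {c : ℚ | (N : ℕ∞) < (preperiodic d c).encard} ∧ (height t : ℝ) ≤ X} =
            exceptional d N X := by
          ext c
          constructor
          · rintro ⟨h1, h2⟩
            obtain ⟨h5, h6⟩ := (height_le c X).1 h2
            exact ⟨h5, h6, h1⟩
          · rintro ⟨h5, h6, h1⟩
            exact ⟨h1, (height_le c X).2 ⟨h5, h6⟩⟩
        rw [hset]
        obtain ⟨h5, h6⟩ := h X hX
        refine ⟨h5, h6.trans ?_⟩
        calc C * X ^ (1 / ((j : ℝ) + 1)) ≤ max C 0 * X ^ (1 / ((j : ℝ) + 1)) :=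
              mul_le_mul_of_nonneg_right (le_max_left _ _) (by positivity)
          _ ≤ max C 0 * X ^ (1 / ((j : ℝ) + 1) + ε) := by
              apply mul_le_mul_of_nonneg_left _ (le_max_right _ _)
              exact Real.rpow_le_rpow_of_exponent_le hX (by linarith))
    refine ⟨N, E, h3, fun x hx hxE β hβ hβ0 => (h4 x hx hxE β hβ hβ0 ()).subset ?_⟩
    rintro c ⟨h5, h6⟩
    exact ⟨not_le.1 h6, h5⟩
  choose N E h1 h2 using hall
  have hlim : Tendsto (fun m : ℕ => ENNReal.ofReal ((1 / ((m : ℝ) + 1)) / (1 - θ))) atTop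
      (𝓝 (ENNReal.ofReal (0 / (1 - θ)))) :=
    ENNReal.tendsto_ofReal (tendsto_one_div_add_atTop_nhds_zero_nat.div_const (1 - θ))
  rw [zero_div, ENNReal.ofReal_zero] at hlim
  refine ⟨⋂ m, E m, le_antisymm (ge_of_tendsto' hlim fun m => (dimH_mono (Set.iInter_subset _ m)).trans (h1 m)) bot_le,
    fun x hx hxE β hβ hβ0 => ?_⟩
  rw [Set.mem_iInter] at hxE
  push Not at hxE
  obtain ⟨j, hj⟩ := hxE
  exact ⟨N j, h2 j x hx hj β hβ hβ0⟩

/-- **Theorem.** Let `ν k / log k → ∞` and let `B` be a countable set of real numbers. There is a set `E` of real numbers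
of Hausdorff dimension zero such that for each `x > 1` outside `E`, each positive `β` in `B`, each `θ < 1` and each `d ≥ 2`
there is `N` such that for ALL rational numbers `c` but finitely many with `|H(c) - β x ^ (ν k)| ≤ x ^ (θ ν k)` for some
`k`, `H(c)` the height, the map `z ^ d + c` has at most `N` rational preperiodic points. -/
theorem result : ∀ ν : ℕ → ℝ, Fast ν → ∀ B : Set ℝ, B.Countable →
    ∃ E : Set ℝ, dimH E = 0 ∧ ∀ x : ℝ, 1 < x → x ∉ E → ∀ β ∈ B, 0 < β → ∀ θ : ℝ, θ < 1 → ∀ d : ℕ, 2 ≤ d →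
      ∃ N : ℕ, {c : ℚ | Near ν θ β x (height c) ∧ ¬ (preperiodic d c).encard ≤ N}.Finite := by
  intro ν hν B hB
  have hθm : ∀ m : ℕ, 1 - 1 / ((m : ℝ) + 1) < 1 := fun m => by
    have : (0 : ℝ) < 1 / ((m : ℝ) + 1) := by positivity
    linarith
  have hall : ∀ i m : ℕ, _ := fun i m => one_degree (i + 2) (by omega) hν B hB (hθm m)
  choose E hE1 hE2 using hall
  refine ⟨⋃ i, ⋃ m, E i m, ?_, fun x hx hxE β hβ hβ0 θ hθ d hd => ?_⟩
  · rw [dimH_iUnion, ENNReal.iSup_eq_zero]
    intro i
    rw [dimH_iUnion, ENNReal.iSup_eq_zero]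
    exact hE1 i
  · obtain ⟨i, rfl⟩ : ∃ i, d = i + 2 := ⟨d - 2, by omega⟩
    obtain ⟨m, hm⟩ := exists_nat_one_div_lt (sub_pos.2 hθ)
    obtain ⟨N, hN⟩ := hE2 i m x hx (fun h => hxE (Set.mem_iUnion.2 ⟨i, Set.mem_iUnion.2 ⟨m, h⟩⟩)) β hβ hβ0
    obtain ⟨n1, hn1⟩ := ((tendsto_lam hν).eventually_ge_atTop 0).exists_forall_of_atTop
    -- the finitely many windows with a negative exponent
    have hfin : ∀ n : ℕ, {c : ℚ | |(height c : ℝ) - β * x ^ ν n| ≤ x ^ (θ * ν n)}.Finite := by
      intro n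
      have hsub : {c : ℚ | |(height c : ℝ) - β * x ^ ν n| ≤ x ^ (θ * ν n)} ⊆
          {c : ℚ | height c ≤ ⌊β * x ^ ν n + x ^ (θ * ν n)⌋₊} := by
        intro c hc
        have hc' : |(height c : ℝ) - β * x ^ ν n| ≤ x ^ (θ * ν n) := hc
        have h3 := (abs_le.1 hc').2
        exact Nat.le_floor (by linarith)
      refine Set.Finite.subset ?_ hsub
      set M : ℕ := ⌊β * x ^ ν n + x ^ (θ * ν n)⌋₊ with hM
      have hinj : Set.InjOn (fun c : ℚ => (c.num, (c.den : ℤ))) {c : ℚ | height c ≤ M} := by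
        intro a _ b _ hab
        simp only [Prod.mk.injEq] at hab
        exact Rat.ext hab.1 (by exact_mod_cast hab.2)
      refine Set.Finite.of_finite_image (Set.Finite.subset ((Set.finite_Icc (-(M : ℤ)) M).prod
        (Set.finite_Icc (-(M : ℤ)) M)) ?_) hinj
      rintro _ ⟨c, hc, rfl⟩
      have h4 : c.num.natAbs ≤ M := (le_max_left _ _).trans hc
      have h5 : c.den ≤ M := (le_max_right _ _).trans hc
      simp only [Set.mem_prod, Set.mem_Icc]
      omega
    refine ⟨N, (hN.union (Set.Finite.biUnion (Finset.range n1).finite_toSet (fun n _ => hfin n))).subset ?_⟩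
    rintro c ⟨⟨n, hn⟩, hc⟩
    by_cases hlt : n < n1
    · right
      rw [Set.mem_iUnion₂]
      exact ⟨n, by rw [Finset.mem_coe, Finset.mem_range]; exact hlt, hn⟩
    · left
      refine ⟨⟨n, hn.trans ?_⟩, hc⟩
      apply Real.rpow_le_rpow_of_exponent_le hx.le
      apply mul_le_mul_of_nonneg_right _ (hn1 n (not_lt.1 hlt))
      linarith

end Pool.Agent.Results.MP_c076ed_nt.ParametersNearPowers
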